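import Pool.Agent.H1.OW.Kev
import Pool.Agent.H73.S3.Bdo

/-!
# [H1 OW CEL] the cells of the tuples (MP_b39724_nt, THEOREM OW, S4, piece b6)

`c' = cO hp c m`, `S' = So hp c m Pa`, `X'` any data of a fibre for `S'`, `b` a configuration, `l k` a letter with own index `k`, `f = up b v l`, `v ∈ Fr b`, `m ≥ 3`.
* `cel_mis`: the indicator [`KL {k}ᶜ (vl τ j) = KL {k}ᶜ (x0f j)` for the fixed letters `j` and all `k`, `KL {k}ᶜ (vl τ (v i)) = KL {k}ᶜ (x0v i)` for `k ≠ i`] is a product of functions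
  which miss a variable. `oe_mis`: the indicator of an order type.
* `cod`: the code of a tuple: killed values and order; a finite set of codes (`Gam`, `Del`), default value outside the letters of `b`. `cod_mis`, `cod_oe`, `cod_fix`, `cod_root`.
-/

set_option autoImplicit false

open scoped NumberField commutatorElement
open IsDedekindDomain
open scoped Classical

noncomputable section

namespace H1.OW

open H63.MA H38.BB H38.BG H57.PC H57.BRA H77.WD H77.WE H77.PC3 H35.CF H35.UB H77.S3 H71.S3 H1.S3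
  H73.S3 H82.S3 H12.OW H48.OW H93.OW H93.BX

section mis

variable {m : ℕ} {V : Type}

/-- the indicator -/
def ind (Q : Prop) : ℂ := if Q then 1 else 0

theorem ind_and (Q R : Prop) : ind (Q ∧ R) = ind Q * ind R := by
  unfold ind
  by_cases hq : Q
  · by_cases hr : R
    · rw [if_pos hq, if_pos hr, if_pos ⟨hq, hr⟩, one_mul]
    · rw [if_neg hr, if_neg fun h : Q ∧ R => hr h.2, mul_zero]
  · rw [if_neg hq, if_neg fun h : Q ∧ R => hq h.1, zero_mul]

theorem ind_congr {Q R : Prop} (h : Q ↔ R) : ind Q = ind R := by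
  unfold ind
  exact if_congr h rfl rfl

theorem mis_ind' {ι : Type} (s : Finset ι) (T : ι → Finset (Fin m)) (R : ι → (Fin m → V) → Prop)
    (hT : ∀ i ∈ s, T i ≠ Finset.univ) (hR : ∀ i ∈ s, Dp (T i) (R i)) :
    ∃ h : Fin m → (Fin m → V) → ℂ, Mis h ∧ ∀ x, ∏ k, h k x = ind (∀ i ∈ s, R i x) := by
  obtain ⟨h, h1, h2⟩ := mis_ind s T R hT hR
  refine ⟨h, h1, fun x => (h2 x).trans ?_⟩
  unfold ind
  by_cases hh : ∀ i ∈ s, R i x
  · rw [if_pos hh, if_pos hh]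
  · rw [if_neg hh, if_neg hh]

/-- the product of two indicators -/
theorem mis_and {Q R : (Fin m → V) → Prop} {s : (Fin m → V) → Prop}
    (hQ : ∃ h : Fin m → (Fin m → V) → ℂ, Mis h ∧ ∀ x, s x → ∏ k, h k x = ind (Q x))
    (hR : ∃ h : Fin m → (Fin m → V) → ℂ, Mis h ∧ ∀ x, s x → ∏ k, h k x = ind (R x)) :
    ∃ h : Fin m → (Fin m → V) → ℂ, Mis h ∧ ∀ x, s x → ∏ k, h k x = ind (Q x ∧ R x) := by
  obtain ⟨h, h1, h2⟩ := hQ
  obtain ⟨h', h1', h2'⟩ := hR
  refine ⟨fun k x => h k x * h' k x, mis_mul h1 h1', fun x hx => ?_⟩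
  rw [Finset.prod_mul_distrib, h2 x hx, h2' x hx, ind_and]

theorem mis_congr {Q R : (Fin m → V) → Prop} {s : (Fin m → V) → Prop} (hs : ∀ x, s x → (Q x ↔ R x))
    (hQ : ∃ h : Fin m → (Fin m → V) → ℂ, Mis h ∧ ∀ x, s x → ∏ k, h k x = ind (Q x)) :
    ∃ h : Fin m → (Fin m → V) → ℂ, Mis h ∧ ∀ x, s x → ∏ k, h k x = ind (R x) := by
  obtain ⟨h, h1, h2⟩ := hQ
  exact ⟨h, h1, fun x hx => (h2 x hx).trans (ind_congr (hs x hx))⟩

theorem sing_ne (hm : 2 ≤ m) (k : Fin m) : ({k} : Finset (Fin m)) ≠ Finset.univ := by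
  intro h
  have h1 := congrArg Finset.card h
  rw [Finset.card_univ, Fintype.card_fin, Finset.card_singleton] at h1
  omega

theorem comp_ne (k : Fin m) : ({k}ᶜ : Finset (Fin m)) ≠ Finset.univ := by
  intro h
  have h1 : k ∈ ({k}ᶜ : Finset (Fin m)) := by
    rw [h]
    exact Finset.mem_univ k
  rw [Finset.mem_compl, Finset.mem_singleton] at h1
  exact h1 rfl

end mis

section oe

variable {K : Type} [Field K] [NumberField K] {Λ : Type} {m : ℕ}

/-- the indicator of an order type -/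
theorem oe_mis (hm : 3 ≤ m) (Z : Finset (Pl K)) (b : Pl K → Option Λ) (v₀ : Fin m → Pl K) :
    ∃ h : Fin m → (Fin m → Pl K) → ℂ, Mis h ∧ ∀ v, ∏ k, h k v = ind (Oe Z b v v₀) := by
  obtain ⟨h, h1, h2⟩ := mis_ind' (V := Pl K) ((Finset.univ : Finset (Fin m)) ×ˢ sp Z b)
    (fun i => {i.1}) (fun i v => (nm (v i.1) < nm i.2 ∧ nm (v₀ i.1) < nm i.2) ∨
      (nm i.2 < nm (v i.1) ∧ nm i.2 < nm (v₀ i.1))) (fun i _ => sing_ne (by omega) i.1)
    fun i _ => dp_comp (dp_coord i.1) fun w => (nm w < nm i.2 ∧ nm (v₀ i.1) < nm i.2) ∨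
      (nm i.2 < nm w ∧ nm i.2 < nm (v₀ i.1))
  obtain ⟨h', h1', h2'⟩ := mis_ind' (V := Pl K)
    ((Finset.univ : Finset (Fin m × Fin m)).filter fun i => i.1 ≠ i.2)
    (fun i => {i.1, i.2}) (fun i v => (nm (v i.1) < nm (v i.2) ∧ nm (v₀ i.1) < nm (v₀ i.2)) ∨
      (nm (v i.2) < nm (v i.1) ∧ nm (v₀ i.2) < nm (v₀ i.1))) (fun i _ => pair_ne hm i.1 i.2)
    fun i _ x y hxy => by
      have e1 : x i.1 = y i.1 := hxy i.1 (by simp)
      have e2 : x i.2 = y i.2 := hxy i.2 (by simp)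
      show ((nm (x i.1) < nm (x i.2) ∧ _) ∨ (nm (x i.2) < nm (x i.1) ∧ _)) = _
      rw [e1, e2]
  refine ⟨fun k x => h k x * h' k x, mis_mul h1 h1', fun v => ?_⟩
  rw [Finset.prod_mul_distrib, h2, h2', ← ind_and]
  refine ind_congr ⟨fun ⟨a1, a2⟩ => ?_, fun ⟨a1, a2⟩ => ?_⟩
  · exact ⟨fun k w hw => a1 (k, w) (Finset.mem_product.2 ⟨Finset.mem_univ _, hw⟩), fun k j hkj =>
      a2 (k, j) (Finset.mem_filter.2 ⟨Finset.mem_univ _, hkj⟩)⟩
  · exact ⟨fun i hi => a1 i.1 i.2 (Finset.mem_product.1 hi).2, fun i hi =>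
      a2 i.1 i.2 (Finset.mem_filter.1 hi).2⟩

end oe

section nt

variable {K : Type} [Field K] [NumberField K] {Ω : Type} [Field Ω] [Algebra K Ω]
  {p N : ℕ} {ζ : K} {D : RD0 K p ζ} {Q : DP K Ω} {A : GS D Ω} {P : Type} [Group P] {hp : p.Prime}
  {c : CL p N P} {m : ℕ} {Pa : Par} {G' : SG (cO hp c m) (So hp c m Pa)} {B : SD D Q A}
  {X' : FD A (P × Ci p m) (So hp c m Pa)} {W : WF A} {T : ℝ} {Zc : Finset (Pl K)}

theorem kl_one (hG' : ∀ x, G'.y x = sy Pa x) {l : Fin m → Px (cO hp c m)}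
    (hl : ∀ k, ow (l k) = some k) (k : Fin m) :
    ∀ i ∉ ({k}ᶜ : Finset (Fin m)), KL hp c m Pa {k}ᶜ (il (G'.y (l i))) = 1 := by
  intro i hi
  rw [Finset.mem_compl, not_not, Finset.mem_singleton] at hi
  subst hi
  rw [KL_il, hG', OwL.kl_sy, if_neg]
  · exact map_one SemidirectProduct.inl
  · intro h
    have h1 := h i (hl i)
    rw [Finset.mem_compl, Finset.mem_singleton] at h1
    exact h1 rfl

variable (G' B X' W T Zc) in
/-- the values `x` are in the cell of `x0f` (letters of `b`), `x0v` (the places `v k`) -/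
def Icl (b : Pl K → Option (Px (cO hp c m))) (x0f : Pl K ⊕ Fin A.g → SP (So hp c m Pa) (P × Ci p m))
    (x0v : Fin m → SP (So hp c m Pa) (P × Ci p m)) (v : Fin m → Pl K)
    (x : Pl K ⊕ Fin A.g → SP (So hp c m Pa) (P × Ci p m)) : Prop :=
  (∀ j ∈ (adf G' B X' W T Zc b).Jf, ∀ k : Fin m,
      KL hp c m Pa {k}ᶜ (x j) = KL hp c m Pa {k}ᶜ (x0f j)) ∧
    ∀ i k : Fin m, k ≠ i → KL hp c m Pa {k}ᶜ (x (Sum.inl (v i))) = KL hp c m Pa {k}ᶜ (x0v i)

/-- (b6) the indicator of a cell is a product of functions which miss a variable -/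
theorem cel_mis (hG' : ∀ x, G'.y x = sy Pa x) (hZ : Disjoint Zc X'.E)
    (h0 : ∀ v ∈ Zc, v ∉ D.S0) (R : Pl K → Prop) (b : Pl K → Option (Px (cO hp c m)))
    (l : Fin m → Px (cO hp c m)) (hl : ∀ k, ow (l k) = some k) (tb : Pl K → So hp c m Pa)
    (tl : Fin m → So hp c m Pa) (τ : (Fin m → Pl K) → Pl K → So hp c m Pa)
    (hτl : ∀ v ∈ Fr Zc R b m, ∀ k, τ v (v k) = tl k)
    (hτb : ∀ v ∈ Fr Zc R b m, ∀ w, (∀ k, v k ≠ w) → τ v w = tb w)
    (x0f : Pl K ⊕ Fin A.g → SP (So hp c m Pa) (P × Ci p m))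
    (x0v : Fin m → SP (So hp c m Pa) (P × Ci p m)) :
    ∃ h : Fin m → (Fin m → Pl K) → ℂ, Mis h ∧ ∀ v, v ∈ Fr Zc R b m → ∏ k, h k v =
      ind (Icl G' B X' W T Zc b x0f x0v v ((adf G' B X' W T Zc (up b v l)).vl (τ v))) := by
  have hfr : ∀ v ∈ Fr Zc R b m, ∀ j ∈ (adf G' B X' W T Zc b).Jf, ∀ k, Sum.inl (v k) ≠ j := by
    intro v hv j hj k hk
    obtain ⟨a1, -⟩ := mem_fr.1 hv
    subst hk
    have hj' : (Sum.inl (v k) : Pl K ⊕ Fin A.g) ∈
      (sp Zc b ∪ X'.E).disjSum (Finset.univ : Finset (Fin A.g)) := hj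
    rw [Finset.inl_mem_disjSum, Finset.mem_union, mem_sp] at hj'
    rcases hj' with h | h
    · exact h.2 (a1 k).2.2
    · exact Finset.disjoint_left.1 hZ (a1 k).1 h
  refine mis_and ?_ ?_
  · obtain ⟨h, h1, h2⟩ := mis_ind' (V := Pl K)
      ((adf G' B X' W T Zc b).Jf ×ˢ (Finset.univ : Finset (Fin m)))
      (fun i => {i.2}ᶜ) (fun i x => evw (kev G' B X' W T Zc b l tb tl (KL hp c m Pa {i.2}ᶜ) {i.2}ᶜ x)
        (KL hp c m Pa {i.2}ᶜ (il (tb ((adf G' B X' W T Zc b).pj i.1))))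
        ((adf G' B X' W T Zc b).W i.1) = KL hp c m Pa {i.2}ᶜ (x0f i.1)) (fun i _ => comp_ne i.2)
      fun i _ => dp_eq (fix_dp b l tb tl _ _ _ _) _
    refine ⟨h, h1, fun v hv => (h2 v).trans (ind_congr ⟨fun hh j hj k => ?_, fun hh i hi => ?_⟩)⟩
    · rw [vl_fix hZ h0 b l tb tl _ _ (kl_one hG' hl k) hv (τ v) (hτl v hv) (hτb v hv) j
        (hfr v hv j hj)]
      exact hh (j, k) (Finset.mem_product.2 ⟨hj, Finset.mem_univ _⟩)
    · have hj := (Finset.mem_product.1 hi).1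
      have h3 := hh i.1 hj i.2
      rw [vl_fix hZ h0 b l tb tl _ _ (kl_one hG' hl i.2) hv (τ v) (hτl v hv) (hτb v hv) i.1
        (hfr v hv i.1 hj)] at h3
      exact h3
  · obtain ⟨h, h1, h2⟩ := mis_ind' (V := Pl K)
      ((Finset.univ : Finset (Fin m × Fin m)).filter fun i => i.2 ≠ i.1)
      (fun i => {i.2}ᶜ) (fun i x => evw (kev G' B X' W T Zc b l tb tl (KL hp c m Pa {i.2}ᶜ) {i.2}ᶜ x)
        (KL hp c m Pa {i.2}ᶜ (il (tl i.1))) (W.Wv (x i.1)) = KL hp c m Pa {i.2}ᶜ (x0v i.1))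
      (fun i _ => comp_ne i.2) fun i hi => by
        have h3 := (Finset.mem_filter.1 hi).2
        have h4 : insert i.1 ({i.2}ᶜ : Finset (Fin m)) = {i.2}ᶜ := by
          refine Finset.insert_eq_of_mem ?_
          rw [Finset.mem_compl, Finset.mem_singleton]
          exact fun h => h3 h.symm
        have h5 := dp_eq (root_dp (G := G') (B := B) (X := X') (W := W) (T := T) (Zc := Zc) b l tb tl
          (KL hp c m Pa {i.2}ᶜ) {i.2}ᶜ (KL hp c m Pa {i.2}ᶜ (il (tl i.1))) i.1)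
          (KL hp c m Pa {i.2}ᶜ (x0v i.1))
        rw [h4] at h5
        exact h5
    refine ⟨h, h1, fun v hv => (h2 v).trans (ind_congr ⟨fun hh i k hik => ?_, fun hh i hi => ?_⟩)⟩
    · rw [vl_root hZ h0 b l tb tl _ _ (kl_one hG' hl k) hv (τ v) (hτl v hv) (hτb v hv) i]
      exact hh (i, k) (Finset.mem_filter.2 ⟨Finset.mem_univ _, hik⟩)
    · have h3 := hh i.1 i.2 (Finset.mem_filter.1 hi).2
      rw [vl_root hZ h0 b l tb tl _ _ (kl_one hG' hl i.2) hv (τ v) (hτl v hv) (hτb v hv) i.1] at h3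
      exact h3

end nt

end H1.OW
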