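import Pool.Agent.H93.OW.Qbm

/-!
# [H1 OW CLA] MP_b39724_nt, theorem OW, chapter S4: cells, generic part

* `cell_sum`: a sum is the sum over the cells; the indicator functions of the cells are products of factors. `cell_mis`: they miss a variable if the `k`-th cell value does not depend on the `k`-th variable.
* `cell_num`: `A ^ n ≤ (log Y) ^ C` for `n ≤ a + b * log log Y`, `Y` large.
-/

set_option autoImplicit false

open scoped Classical

noncomputable section

namespace H1.OW

open H93.BX

attribute [local instance 50] Fintype.ofFinite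

section cel

variable {X : Type} {m : ℕ} {CT : Fin m → Type}

/-- the indicator function of a cell, as a family of factors -/
def cfac (cv : ∀ k, (Fin m → X) → CT k) (C : ∀ k, CT k) (k : Fin m) (x : Fin m → X) : ℂ :=
  if cv k x = C k then 1 else 0

theorem cfac_prod (cv : ∀ k, (Fin m → X) → CT k) (C : ∀ k, CT k) (x : Fin m → X) :
    ∏ k, cfac cv C k x = if (fun k => cv k x) = C then 1 else 0 := by
  unfold cfac
  by_cases h : (fun k => cv k x) = C
  · rw [if_pos h, Finset.prod_eq_one]
    intro k _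
    rw [if_pos (congrFun h k)]
  · rw [if_neg h]
    have h1 : ∃ k, cv k x ≠ C k := by
      by_contra hc
      push Not at hc
      exact h (funext hc)
    obtain ⟨k, hk⟩ := h1
    exact Finset.prod_eq_zero (Finset.mem_univ k) (if_neg hk)

theorem cell_sum [∀ k, Finite (CT k)] (cv : ∀ k, (Fin m → X) → CT k) (s : Finset (Fin m → X))
    (F : (Fin m → X) → ℂ) :
    ∑ x ∈ s, F x = ∑ C : ∀ k, CT k, ∑ x ∈ s, F x * ∏ k, cfac cv C k x := by
  rw [Finset.sum_comm]
  refine Finset.sum_congr rfl fun x _ => ?_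
  rw [← Finset.mul_sum]
  simp only [cfac_prod]
  rw [Finset.sum_ite_eq]
  simp

theorem cell_mis (cv : ∀ k, (Fin m → X) → CT k)
    (hcv : ∀ k x u, cv k (Function.update x k u) = cv k x) (C : ∀ k, CT k) :
    Mis (cfac cv C) where
  le k x := by
    unfold cfac
    split_ifs
    · exact le_of_eq norm_one
    · rw [norm_zero]
      exact zero_le_one
  upd k x u := by
    unfold cfac
    rw [hcv k x u]

end cel

section num

/-- the number of cells -/
theorem cell_num (A : ℝ) (hA : 1 ≤ A) (a b : ℝ) (hb : 0 ≤ b) :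
    ∃ C Y₀ : ℝ, 0 ≤ C ∧ ∀ Y : ℝ, Y₀ ≤ Y → ∀ n : ℕ, (n : ℝ) ≤ a + b * Real.log (Real.log Y) →
      A ^ n ≤ Real.log Y ^ C := by
  have hlA : 0 ≤ Real.log A := Real.log_nonneg hA
  refine ⟨b * Real.log A + 1, Real.exp (Real.exp (|a| * Real.log A + 1)), by positivity, fun Y hY n hn => ?_⟩
  have hY0 : 0 < Y := lt_of_lt_of_le (Real.exp_pos _) hY
  have h1 : Real.exp (|a| * Real.log A + 1) ≤ Real.log Y := (Real.le_log_iff_exp_le hY0).2 hY
  have hl0 : 0 < Real.log Y := lt_of_lt_of_le (Real.exp_pos _) h1
  have h2 : |a| * Real.log A + 1 ≤ Real.log (Real.log Y) := (Real.le_log_iff_exp_le hl0).2 h1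
  have hA0 : 0 < A := by linarith
  have h3 : A ^ n = Real.exp (n * Real.log A) := by
    rw [mul_comm, Real.exp_mul, Real.exp_log hA0, Real.rpow_natCast]
  have h4 : Real.log Y ^ (b * Real.log A + 1) =
      Real.exp ((b * Real.log A + 1) * Real.log (Real.log Y)) := by
    rw [Real.rpow_def_of_pos hl0, mul_comm]
  rw [h3, h4]
  refine Real.exp_le_exp.2 ?_
  have h5 : (n : ℝ) * Real.log A ≤ (a + b * Real.log (Real.log Y)) * Real.log A :=
    mul_le_mul_of_nonneg_right hn hlA
  have h6 : a * Real.log A ≤ |a| * Real.log A := mul_le_mul_of_nonneg_right (le_abs_self a) hlA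
  nlinarith

end num

end H1.OW
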