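import Pool.Agent.H1.OW.Cel
import Pool.Agent.H48.OW.Cls

/-!
# [H1 OW CLM] the indicator of a class of tuples is a product of functions which miss a variable (MP_b39724_nt, THEOREM OW, S4, piece c2)

`celq_mis`: for the class `Cel` of H48/OW/Cls.
-/

set_option autoImplicit false

open scoped NumberField commutatorElement
open IsDedekindDomain
open scoped Classical

noncomputable section

namespace H1.OW

open H63.MA H38.BB H38.BG H57.PC H57.BRA H77.WD H77.WE H77.PC3 H35.CF H35.UB H77.S3 H71.S3 H1.S3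
  H73.S3 H73.OW H82.S3 H12.OW H48.OW H93.OW H93.BX

section lab

variable {K : Type} [Field K] [NumberField K] {p N : ℕ} {P : Type} [Group P] {hp : p.Prime}
  {c : CL p N P} {Pa : Par} {q d : ℕ}

theorem lf2_up (b : Pl K → Option (Elb2 c (Sp Pa (Px c)) q d)) {v : Fin (d + 1) → Pl K}
    (hv : Function.Injective v) (l : Fin (d + 1) → Elb2 c (Sp Pa (Px c)) q d) :
    lf2 (up b v l) = up (lf2 b) v fun k => (l k).1 := by
  funext w
  by_cases h : ∃ k, v k = w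
  · obtain ⟨k, rfl⟩ := h
    rw [up_of _ v _ hv k]
    unfold lf2
    rw [up_of b v l hv k]
    rfl
  · push Not at h
    rw [up_ne _ v _ w h]
    unfold lf2
    rw [up_ne b v l w h]

theorem gq_up (b : Pl K → Option (Elb2 c (Sp Pa (Px c)) q d)) {v : Fin (d + 1) → Pl K}
    (hv : Function.Injective v) (l : Fin (d + 1) → Elb2 c (Sp Pa (Px c)) q d) :
    gq hp (up b v l) v = up (fun w => (lf2 b w).map fun a => mkx a none) v
      fun k => mkx (l k).1 (some k) := by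
  unfold gq
  rw [lf2_up b hv l, H93.OW.rc_up _ hv]

theorem tq_of (τ₀ : Pl K → Sp Pa (Px c)) (b : Pl K → Option (Elb2 c (Sp Pa (Px c)) q d))
    {v : Fin (d + 1) → Pl K} (hv : Function.Injective v)
    (l : Fin (d + 1) → Elb2 c (Sp Pa (Px c)) q d) (k : Fin (d + 1)) :
    tq hp τ₀ (up b v l) (v k) = (owl hp c (d + 1)).inc Pa (l k).2.1 := by
  unfold tq tf2
  rw [up_of b v l hv k]
  rfl

theorem tq_ne (τ₀ : Pl K → Sp Pa (Px c)) (b : Pl K → Option (Elb2 c (Sp Pa (Px c)) q d))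
    {v : Fin (d + 1) → Pl K} (l : Fin (d + 1) → Elb2 c (Sp Pa (Px c)) q d) (w : Pl K)
    (hw : ∀ k, v k ≠ w) : tq hp τ₀ (up b v l) w = tq hp τ₀ b w := by
  unfold tq tf2
  rw [up_ne b v l w hw]

theorem fr_map {Zc : Finset (Pl K)} {R : Pl K → Prop} {b : Pl K → Option (Elb2 c (Sp Pa (Px c)) q d)}
    {v : Fin (d + 1) → Pl K} :
    v ∈ Fr Zc R (fun w => (lf2 b w).map fun a => (mkx a none : Px (cO hp c (d + 1)))) (d + 1) ↔
      v ∈ Fr Zc R b (d + 1) := by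
  rw [mem_fr, mem_fr]
  refine and_congr (forall_congr' fun k => and_congr_right fun _ => and_congr_right fun _ => ?_) Iff.rfl
  rw [Option.map_eq_none_iff]
  unfold lf2
  rw [Option.map_eq_none_iff]

theorem sp_map (Zc : Finset (Pl K)) (b : Pl K → Option (Elb2 c (Sp Pa (Px c)) q d)) :
    sp Zc (fun w => (lf2 b w).map fun a => (mkx a none : Px (cO hp c (d + 1)))) = sp Zc b := by
  ext w
  rw [mem_sp, mem_sp]
  refine and_congr_right fun _ => not_congr ?_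
  rw [Option.map_eq_none_iff]
  unfold lf2
  rw [Option.map_eq_none_iff]

end lab

section ob

variable {K : Type} [Field K] [NumberField K] {Ω : Type} [Field Ω] [Algebra K Ω]
  {p N : ℕ} {ζ : K} {D : RD0 K p ζ} {A : GS D Ω} {Λ : Type} {m : ℕ}

/-- the indicator of an order type in the list -/
theorem ob_mis (hm : 3 ≤ m) (W : WF A) (Zc E : Finset (Pl K)) (b : Pl K → Option Λ)
    (v₀ : Fin m → Pl K) :
    ∃ h : Fin m → (Fin m → Pl K) → ℂ, Mis h ∧ ∀ v, ∏ k, h k v = ind (Ob W Zc E b v₀ v) := by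
  obtain ⟨h, h1, h2⟩ := mis_ind' (V := Pl K) ((sp Zc b ∪ E ∪ D.S0) ×ˢ (Finset.univ : Finset (Fin m)))
    (fun i => {i.2}) (fun i v => (W.l.idxOf i.1 < W.l.idxOf (v₀ i.2) ↔
      W.l.idxOf i.1 < W.l.idxOf (v i.2))) (fun i _ => sing_ne (by omega) i.2)
    fun i _ => dp_comp (dp_coord i.2) fun w => (W.l.idxOf i.1 < W.l.idxOf (v₀ i.2) ↔
      W.l.idxOf i.1 < W.l.idxOf w)
  obtain ⟨h', h1', h2'⟩ := mis_ind' (V := Pl K) (Finset.univ : Finset (Fin m × Fin m))
    (fun i => {i.1, i.2}) (fun i v => (W.l.idxOf (v₀ i.1) < W.l.idxOf (v₀ i.2) ↔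
      W.l.idxOf (v i.1) < W.l.idxOf (v i.2))) (fun i _ => pair_ne hm i.1 i.2)
    fun i _ x y hxy => by
      have e1 : x i.1 = y i.1 := hxy i.1 (by simp)
      have e2 : x i.2 = y i.2 := hxy i.2 (by simp)
      show (W.l.idxOf (v₀ i.1) < W.l.idxOf (v₀ i.2) ↔ W.l.idxOf (x i.1) < W.l.idxOf (x i.2)) = _
      rw [e1, e2]
  refine ⟨fun k x => h k x * h' k x, mis_mul h1 h1', fun v => ?_⟩
  rw [Finset.prod_mul_distrib, h2, h2', ← ind_and]
  refine ind_congr ⟨fun ⟨a1, a2⟩ => ?_, fun ⟨a1, a2⟩ => ?_⟩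
  · refine ⟨fun w hw k => a1 (w, k) (Finset.mem_product.2 ⟨?_, Finset.mem_univ _⟩), fun k j =>
      a2 (k, j) (Finset.mem_univ _)⟩
    rw [Finset.mem_union, Finset.mem_union, or_assoc]
    exact hw
  · refine ⟨fun i hi => ?_, fun i _ => a2 i.1 i.2⟩
    have h3 := (Finset.mem_product.1 hi).1
    rw [Finset.mem_union, Finset.mem_union, or_assoc] at h3
    exact a1 i.1 h3 i.2

end ob

section cls

variable {K : Type} [Field K] [NumberField K] {Ω : Type} [Field Ω] [Algebra K Ω]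
  {p N : ℕ} {ζ : K} {D : RD0 K p ζ} {Q : DP K Ω} {A : GS D Ω} {P : Type} [Group P] {hp : p.Prime}
  {c : CL p N P} {Pa : Par} {q d : ℕ}

/-- (c2) the indicator of a class -/
theorem celq_mis (hd : 2 ≤ d) (G' : SG (cO hp c (d + 1)) (So hp c (d + 1) Pa))
    (hG' : ∀ x, G'.y x = sy Pa x) (B : SD D Q A) (X : FD A P (Sp Pa (Px c))) (W : WF A) (T : ℝ)
    (Zc : Finset (Pl K)) (hZ : Disjoint Zc X.E) (h0 : ∀ v ∈ Zc, v ∉ D.S0) (R : Pl K → Prop)
    (τ₀ : Pl K → Sp Pa (Px c)) (b : Pl K → Option (Elb2 c (Sp Pa (Px c)) q d))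
    (l : Fin (d + 1) → Elb2 c (Sp Pa (Px c)) q d) (v₀ : Fin (d + 1) → Pl K) :
    ∃ h : Fin (d + 1) → (Fin (d + 1) → Pl K) → ℂ, Mis h ∧ ∀ v ∈ Fr Zc R b (d + 1),
      ∏ k, h k v = if Cel G' B X W T Zc τ₀ b l v₀ v then 1 else 0 := by
  obtain ⟨h, h1, h2⟩ := ob_mis (m := d + 1) (by omega) W Zc X.E b v₀
  obtain ⟨h', h1', h2'⟩ := cel_mis (B := B) (X' := fdo hp c (d + 1) X) (W := W) (T := T) (Zc := Zc) hG'
    hZ h0 R (fun w => (lf2 b w).map fun a => mkx a none) (fun k => mkx (l k).1 (some k))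
    (fun k => ow_mkx _ _) (fun w => tq hp τ₀ b w)
    (fun k => (owl hp c (d + 1)).inc Pa (l k).2.1) (fun v w => tq hp τ₀ (up b v l) w)
    (fun v hv k => tq_of τ₀ b (mem_fr.1 hv).2 l k) (fun v _ w hw => tq_ne τ₀ b l w hw)
    (fun j => xq G' B X W T Zc τ₀ (up b v₀ l) v₀ j)
    (fun i => xq G' B X W T Zc τ₀ (up b v₀ l) v₀ (Sum.inl (v₀ i)))
  refine ⟨fun k x => h k x * h' k x, mis_mul h1 h1', fun v hv => ?_⟩
  obtain ⟨hv1, hv2⟩ := mem_fr.1 hv
  rw [Finset.prod_mul_distrib, h2, h2' v (fr_map.2 hv), ← ind_and]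
  refine ind_congr ?_
  have e1 : up (fun w => (lf2 b w).map fun a => (mkx a none : Px (cO hp c (d + 1)))) v
      (fun k => mkx (l k).1 (some k)) = gq hp (up b v l) v := (gq_up b hv2 l).symm
  have e2 : (adf G' B (fdo hp c (d + 1) X) W T Zc
      (fun w => (lf2 b w).map fun a => (mkx a none : Px (cO hp c (d + 1))))).Jf =
      (sp Zc b ∪ X.E).disjSum (Finset.univ : Finset (Fin A.g)) := by
    show (sp Zc (fun w => (lf2 b w).map fun a => (mkx a none : Px (cO hp c (d + 1)))) ∪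
      X.E).disjSum (Finset.univ : Finset (Fin A.g)) = _
    rw [sp_map]
  unfold Icl
  rw [e1, e2]
  constructor
  · rintro ⟨a1, a2, a3⟩
    exact ⟨a1, fun j hj k => (a2 j hj k).symm, fun i k hik => (a3 i k hik).symm⟩
  · rintro ⟨a1, a2, a3⟩
    exact ⟨a1, fun j hj k => (a2 j hj k).symm, fun i k hik => (a3 i k hik).symm⟩

end cls

end H1.OW
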