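import Pool.Agent.H1.OW.Stw
import Pool.Agent.H12.FB.Fin
import Pool.Agent.H51.F4.Defs

/-!
# [H1 OW FIN] THE ASSEMBLY: `EQ4s p` for every prime `p` (MP_b39724_nt, THEOREM OW)

`BX2 p hp`: the box inequality with two layers for all data (H48/OW/Bx2). `eq4s`: `EQ4s p` from `BLG` and `BX2` (copy of `H12.FB.eq3s`; `parw`, `stgsw` instead of `par`, `stgs`).
-/

set_option autoImplicit false

open scoped NumberField commutatorElement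
open IsDedekindDomain Filter Topology
open scoped Classical

noncomputable section

namespace H1.OW

open H38.ML H63.MA H38.BB H38.BG H57.PC H57.BRA H77.WD H77.WE H77.GL H77.PC3 H35.CF H35.UB H77.S3
  H71.S3 H1.S3 H73.S3 H24.RK H12.S3 H51.F3 H51.PF H62.BL H77.INP H93.BX H93.BY H38.AS H77.S0T H77.FLD
  H77.PLF H35.AC H12.FB H48.OW H73.OW

attribute [local instance 50] Fintype.ofFinite

/-- the box inequality with two layers for all data -/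
def BX2 (p : ℕ) (hp : p.Prime) : Prop :=
  ∀ (K : IntermediateField ℚ QBar) [NumberField K] (ζ : K) (_ : IsPrimitiveRoot ζ p)
    (D : RD0 K p ζ) (P : Type) [Group P] [Fintype P] (N : ℕ) (c : CL p N P) (Q : DP K QBar)
    (A : GS D QBar) (B : SD D Q A) (Pa : H82.S3.Par) (κ mm k n : ℕ) [NeZero (p ^ κ)] (z : K)
    (G : SG c (H82.S3.Sp Pa (Px c))), Prw hp κ mm k Pa G →
    BLG D QBar Q A B κ mm A.g n z → Bx2H hp κ mm A.g n z B G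

theorem eq4s (p : ℕ) (hp : p.Prime) (hB : ∀ κ m : ℕ, ∃ N₀ : ℕ, ∀ N : ℕ, N₀ ≤ N →
    ∀ (K : IntermediateField ℚ QBar) [NumberField K] (ζ : K), IsPrimitiveRoot ζ p →
    ∀ z : K, IsPrimitiveRoot z (p ^ (N + 1)) → z ^ p ^ N = ζ → ∀ (D : RD0 K p ζ) (Q : DP K QBar)
      (A : GS D QBar) (B : SD D Q A) (c : ℕ), BLG D QBar Q A B κ m c N z) (hX : BX2 p hp) :
    H51.F4.EQ4s p := by
  intro P _ _ hP
  obtain ⟨Pa, κ, mm, k₁, hPa, hκ, hdv, hexp, hpar⟩ := H82.OW.parw p hp P hP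
  have hne : NeZero (p ^ κ) := ⟨(pow_pos hp.pos _).ne'⟩
  obtain ⟨k₂, κ₁, hone⟩ := one p hp κ Pa.c mm
  obtain ⟨N₀, hblg⟩ := hB κ mm
  obtain ⟨k, hk⟩ : ∃ k, k = k₁ + k₂ + 3 := ⟨_, rfl⟩
  obtain ⟨n₂, hone2⟩ := hone k (by omega)
  obtain ⟨n, hn⟩ : ∃ n, n = N₀ + n₂ + 2 * k + 1 := ⟨_, rfl⟩
  refine ⟨n, κ₁, fun N c hN K _ ζ hζ z hz hzζ D L hL Fr Q hQ φb φ' E hF => ?_⟩
  obtain ⟨hTL, ⟨G, hG, hpi, hT⟩, hSz⟩ := hpar N c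
  obtain ⟨hSiz, hSiz'⟩ := hSz k (by omega)
  have hPr : Prw hp κ mm k Pa G := ⟨hPa, hκ, hdv, hexp, hTL, hG, hpi, hSiz, hSiz'⟩
  obtain ⟨A, B, hSg, hfx⟩ := fxq hp hζ (k := k) (n := n) (by omega) (by omega) hz hzζ D.toRD0 Q
  obtain ⟨sv, si, hsv⟩ := svi_ex G hT L A hF
  obtain ⟨G', gG, fG, r, φG, H, Yv, fY, b, κ', M₁, h1, h2, h3, h4, h5, h6, hmain⟩ :=
    hone2 n (by omega) P (H82.S3.Sp Pa (Px c)) hSiz N c hN G K ζ hζ z hz hzζ D Q A B hSg L hL Fr hQ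
      φb φ' E hF sv si hsv
  obtain ⟨κ₀, hκ₀⟩ : ∃ κ₀ : ℝ, κ₀ = ∏ v ∈ BB D.toRD0 E,
      ((Nat.card (Cen B (Tg G) (fdx L Fr B φb φ' E sv si).l v) : ℝ) / (Nat.card (Tg G) : ℝ)) :=
    ⟨_, rfl⟩
  have hκp : 0 < κ₀ := by
    rw [hκ₀]
    refine Finset.prod_pos fun v _ => div_pos ?_ ?_
    · exact_mod_cast Nat.card_pos
    · exact_mod_cast Nat.card_pos
  obtain ⟨M₂, hM₂⟩ : ∃ M₂ : ℕ, M₂ = ∑ d ∈ Finset.range (Pa.c + 1), (d + 1 + 1) *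
      (Fintype.card (Elb2 c (H82.S3.Sp Pa (Px c)) (p ^ κ) d) *
        Fintype.card (Gr (H82.S3.Sp Pa (Px c)) 1)) := ⟨_, rfl⟩
  refine ⟨G', gG, fG, r, φG, H, Yv, fY, b, κ' / κ₀, max M₁ (Pa.c + 1 + M₂), h1, h2, h3, h4,
    div_pos h5 hκp, h6, fun M hM ε hε hε1 A₁ => ?_⟩
  have hMc : Pa.c + 1 + M₂ ≤ M := (le_max_right _ _).trans hM
  have hMd : ∀ d, d + 2 ≤ Pa.c → (d + 1 + 1) *
      (Fintype.card (Elb2 c (H82.S3.Sp Pa (Px c)) (p ^ κ) d) *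
        Fintype.card (Gr (H82.S3.Sp Pa (Px c)) 1)) ≤ M := by
    intro d hd
    have h7 := Finset.single_le_sum (f := fun d => (d + 1 + 1) *
      (Fintype.card (Elb2 c (H82.S3.Sp Pa (Px c)) (p ^ κ) d) *
        Fintype.card (Gr (H82.S3.Sp Pa (Px c)) 1))) (fun _ _ => Nat.zero_le _)
      (Finset.mem_range.2 (show d < Pa.c + 1 by omega))
    rw [← hM₂] at h7
    exact h7.trans (by omega)
  obtain ⟨C₁, C₀, hC₁, hO2⟩ := hmain M ((le_max_left _ _).trans hM) ε hε hε1 A₁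
  have hBg := hblg n (by omega) K ζ hζ z hz hzζ D.toRD0 Q A B A.g
  obtain ⟨C₁', C₀', hC₁', hS2⟩ := stgsw hp hζ G hPr (Fr := Fr) B hBg
    (hX K ζ hζ D.toRD0 P N c Q A B Pa κ mm k n z G hPr hBg) hF hsv M (by omega) hMd ε A₁ hε
    (Nat.cast_nonneg _)
  obtain ⟨C₂, hC₂⟩ : ∃ C₂, C₂ = max C₁ C₁' := ⟨_, rfl⟩
  have hC3 : 3 ≤ C₂ := by
    rw [hC₂]
    exact hC₁.trans (le_max_left _ _)
  obtain ⟨Y₀, hY₀⟩ := wex B hL Fr hfx E hF.gd C₂ (by linarith)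
  obtain ⟨Y₁, hY₁⟩ : ∃ Y₁ : ℝ, ∀ Y : ℝ, Y₁ ≤ Y → 0 < Y ∧ 2 * Y ≤ Y ^ C₂ ∧
      ∀ v ∈ E, (nm v : ℝ) ≤ T0 ε Y := by
    obtain ⟨Y₁, hY₁⟩ := stg_ev E hε
    refine ⟨Y₁, fun Y hY => ?_⟩
    obtain ⟨e1, e2, -⟩ := hY₁ Y hY
    refine ⟨by linarith, ?_, e2⟩
    calc 2 * Y ≤ Y ^ (2 : ℕ) := by nlinarith
      _ = Y ^ (2 : ℝ) := by norm_cast
      _ ≤ Y ^ C₂ := Real.rpow_le_rpow_of_exponent_le (by linarith) (by linarith)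
  refine ⟨(C₀ + C₀') / κ₀, ?_⟩
  refine H12.S3.Q.gpl_ge (H12.S3.Q.gpl_and (H12.S3.Q.gpl_and
    (hO2 C₂ (by rw [hC₂]; exact le_max_left _ _)) (hS2 C₂ (by rw [hC₂]; exact le_max_right _ _)))
    (gpl_self Fr E)) (max Y₀ Y₁) fun Y hY s hR => ?_
  obtain ⟨⟨hA1, hA2⟩, hs, hGp⟩ := hR
  obtain ⟨Zw, l, Wv, Wi, hW⟩ := hY₀ Y ((le_max_left _ _).trans hY) s hGp
  obtain ⟨hYp, hY2, hYE⟩ := hY₁ Y ((le_max_right _ _).trans hY)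
  refine ⟨H35.UB.Zg D.toRD0 Zw E, fun v hv => ?_, fun v hv hvE hvY => ?_, fun ψ hψ => ?_⟩
  · unfold H35.UB.Zg at hv
    rw [Finset.mem_filter, Finset.mem_sdiff] at hv
    exact ⟨hv.2, hv.1.2⟩
  · unfold H35.UB.Zg
    rw [Finset.mem_filter, Finset.mem_sdiff]
    exact ⟨⟨hW.all v hv (hvY.trans hY2), hvE⟩, hv⟩
  · have e1 := hA1 Zw l Wv Wi hW ψ hψ
    have e2 := hA2 Zw l Wv Wi hW ψ hψ
    have hNg := ngx hp hSiz G (Fr := Fr) B hF hsv hYE hs hW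
    have e3 := mmc hp hζ G B (fdx L Fr B φb φ' E sv si) (wfs L Fr s Zw l Wv Wi) (T0 ε Y)
      (H35.UB.Zg D.toRD0 Zw E) hNg hSiz.c1 ⟨hSiz.pP, hSiz.cP hp, hSiz.eP hp⟩ M (by omega) ψ Y
    have e4 := fsb hp hζ hSiz.pP G hT B hSg hF sv si (T := T0 ε Y) hYp hY2 (M := M) (by omega)
      hs hW hψ
    rw [e4] at e3
    set X0 := (∑ᶠ φ ∈ FS L Fr Q c φb φ' E (2 * Y),
      wps c (cjF Fr s) φb M (T0 ε Y) Y (H35.UB.Zg D.toRD0 Zw E) ψ φ : ℝ) with hX0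
    set S0 := ∑ z : H.Z, (∑ y, b y z) * ∑ f ∈ Cf (H35.UB.Zg D.toRD0 Zw E) (Px c),
              (if Rcl c (cjF Fr s) φb M (T0 ε Y) (H35.UB.Zg D.toRD0 Zw E) f then
                (ψ (nr (sp (H35.UB.Zg D.toRD0 Zw E) f) / Y) : ℂ) else 0) *
                om (H35.UB.Zg D.toRD0 Zw E) (fun v x => H.w z x (φG ((cjF Fr s).F v))) f with hS0
    have e5 : (∏ v ∈ BB D.toRD0 (fdx L Fr B φb φ' E sv si).E,
        ((Nat.card (Cen B (Tg G) (fdx L Fr B φb φ' E sv si).l v) : ℂ) /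
          (Nat.card (Tg G) : ℂ))) = (κ₀ : ℂ) := by
      rw [hκ₀]
      push_cast
      rfl
    rw [e5] at e3
    rw [e3] at e2
    have hκc : (κ₀ : ℂ) ≠ 0 := by exact_mod_cast hκp.ne'
    have e6 : ((X0 : ℝ) : ℂ) - ((κ' / κ₀ : ℝ) : ℂ) * S0 =
        (((κ₀ : ℂ) * (X0 : ℂ) - (κ' : ℂ) * S0)) / (κ₀ : ℂ) := by
      push_cast
      field_simp
    rw [e6, norm_div, Complex.norm_real, Real.norm_of_nonneg hκp.le, div_mul_eq_mul_div,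
      div_le_div_iff_of_pos_right hκp, add_mul]
    rw [add_comm (C₀ * _)]
    exact tri3 e2 e1

end H1.OW
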