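import Pool.Agent.H48.OW.Fdo
import Pool.Agent.H93.OW.Mis

/-!
# [H1 OW KEV] the values of the words after own letters are killed (MP_b39724_nt, THEOREM OW, S4, piece b6)

`f = up b v l`, `v ∈ Fr b`; the conjugators `τ` are `tl k` at `v k` and `tb w` at the other places.
* `evw`, `vl_hom`: the image of `vl τ j` under a homomorphism `φ` of `SP S P`.
* `kev`: the letters after `φ`, for all tuples `x`, the places `x k`, `k ∉ D`, are ignored: `kev_dp`. `vl_fix`, `vl_root`: if `φ` kills the letters `l k`, `k ∉ D`, then the image of the value of a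
  fixed letter `j` depends on `v k`, `k ∈ D`, only, and the image of the value at `v i` on `v i` and the `v k`, `k ∈ D`.
-/

set_option autoImplicit false

open scoped NumberField commutatorElement
open IsDedekindDomain
open scoped Classical

noncomputable section

namespace H1.OW

open H63.MA H38.BB H38.BG H57.PC H57.BRA H77.WD H77.WE H77.PC3 H35.CF H35.UB H77.S3 H71.S3 H1.S3
  H73.S3 H12.OW H48.OW H93.OW

section ad

variable {S P H : Type} [Group S] [Group P] [MulDistribMulAction P S] [Group H] {J V : Type}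

/-- the value of a word for the letters `y`, conjugated back by `a` -/
def evw (y : J → H) (a : H) (w : FreeGroup J) : H := a⁻¹ * FreeGroup.lift y w * a

theorem vl_hom (X : AD S P J V) (φ : SP S P →* H) (τ : V → S) (j : J) :
    φ (X.vl τ j) = evw (fun i => φ (cj (τ (X.pj i)) (X.t i))) (φ (il (τ (X.pj j)))) (X.W j) := by
  have h1 : φ.comp (X.th τ) = FreeGroup.lift fun i => φ (cj (τ (X.pj i)) (X.t i)) := by
    refine FreeGroup.ext_hom _ _ fun i => ?_
    rw [MonoidHom.comp_apply, FreeGroup.lift_apply_of]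
    unfold AD.th
    rw [FreeGroup.lift_apply_of]
  have h2 := DFunLike.congr_fun h1 (X.W j)
  rw [MonoidHom.comp_apply] at h2
  have h3 : (il (τ (X.pj j))⁻¹ : SP S P) = (il (τ (X.pj j)))⁻¹ := map_inv SemidirectProduct.inl _
  show φ (il (τ (X.pj j))⁻¹ * X.th τ (X.W j) * (il (τ (X.pj j))⁻¹)⁻¹) = _
  rw [h3, inv_inv, map_mul, map_mul, map_inv, h2]
  rfl

end ad

section nt

variable {K : Type} [Field K] [NumberField K] {Ω : Type} [Field Ω] [Algebra K Ω]
  {p N : ℕ} {ζ : K} {D : RD0 K p ζ} {Q : DP K Ω} {A : GS D Ω} {P : Type} [Group P]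
  {c : CL p N P} {S : Type} [Group S] [MulDistribMulAction P S] {H : Type} [Group H] {m : ℕ}

variable (G : SG c S) (B : SD D Q A) (X : FD A P S) (W : WF A) (T : ℝ) (Zc : Finset (Pl K))

/-- the letters of a configuration with `m` new places -/
theorem t_up (hZ : Disjoint Zc X.E) {R : Pl K → Prop} (b : Pl K → Option (Px c)) (l : Fin m → Px c)
    {v : Fin m → Pl K} (hv : v ∈ Fr Zc R b m) (w : Pl K) :
    (adf G B X W T Zc (up b v l)).t (Sum.inl w) =
      ldk Finset.univ v (fun k => (il (G.y (l k)) : SP S P))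
        (fun w => (adf G B X W T Zc b).t (Sum.inl w)) w := by
  obtain ⟨h1, h2⟩ := mem_fr.1 hv
  by_cases h : ∃ k, v k = w
  · obtain ⟨k, rfl⟩ := h
    rw [ldk_of h2 _ _ (Finset.mem_univ k)]
    show (if v k ∈ X.E then (⟨X.sv (v k), X.φ (W.L.t (v k))⟩ : SP S P) else
      (if v k ∈ Zc then up b v l (v k) else none).elim 1 fun s => il (G.y s)) = _
    rw [if_neg (Finset.disjoint_left.1 hZ (h1 k).1), if_pos (h1 k).1, up_of b v l h2 k]
    rfl
  · push Not at h
    rw [ldk_ne _ _ fun k _ => h k]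
    show (if w ∈ X.E then (⟨X.sv w, X.φ (W.L.t w)⟩ : SP S P) else
      (if w ∈ Zc then up b v l w else none).elim 1 fun s => il (G.y s)) =
      (if w ∈ X.E then (⟨X.sv w, X.φ (W.L.t w)⟩ : SP S P) else
      (if w ∈ Zc then b w else none).elim 1 fun s => il (G.y s))
    rw [up_ne b v l w h]

/-- the letters after `φ`; the places `x k`, `k ∉ Δ`, are ignored -/
def kev (b : Pl K → Option (Px c)) (l : Fin m → Px c) (tb : Pl K → S) (tl : Fin m → S)
    (φ : SP S P →* H) (Δ : Finset (Fin m)) (x : Fin m → Pl K) : Pl K ⊕ Fin A.g → H :=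
  Sum.elim (ldk Δ x (fun k => φ (cj (tl k) (il (G.y (l k)))))
    fun w => φ (cj (tb w) ((adf G B X W T Zc b).t (Sum.inl w))))
    fun i => φ (cj (tb (B.pl i)) ((adf G B X W T Zc b).t (Sum.inr i)))

theorem kev_dp (b : Pl K → Option (Px c)) (l : Fin m → Px c) (tb : Pl K → S) (tl : Fin m → S)
    (φ : SP S P →* H) (Δ : Finset (Fin m)) : Dp Δ (kev G B X W T Zc b l tb tl φ Δ) :=
  dp_comp (ldk_dp Δ (fun k => φ (cj (tl k) (il (G.y (l k)))))
    fun w => φ (cj (tb w) ((adf G B X W T Zc b).t (Sum.inl w)))) fun y => Sum.elim y _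

variable {G B X W T Zc}

theorem kev_eq (hZ : Disjoint Zc X.E) (h0 : ∀ v ∈ Zc, v ∉ D.S0) {R : Pl K → Prop} (b : Pl K → Option (Px c))
    (l : Fin m → Px c) (tb : Pl K → S) (tl : Fin m → S) (φ : SP S P →* H) (Δ : Finset (Fin m))
    (hφ : ∀ k ∉ Δ, φ (il (G.y (l k))) = 1) {v : Fin m → Pl K} (hv : v ∈ Fr Zc R b m) (τ : Pl K → S)
    (hl : ∀ k, τ (v k) = tl k) (hb : ∀ w, (∀ k, v k ≠ w) → τ w = tb w) :
    (fun i => φ (cj (τ ((adf G B X W T Zc (up b v l)).pj i)) ((adf G B X W T Zc (up b v l)).t i))) =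
      kev G B X W T Zc b l tb tl φ Δ v := by
  obtain ⟨h1, h2⟩ := mem_fr.1 hv
  funext i
  rcases i with w | i
  · show φ (cj (τ w) ((adf G B X W T Zc (up b v l)).t (Sum.inl w))) =
      ldk Δ v (fun k => φ (cj (tl k) (il (G.y (l k)))))
        (fun w => φ (cj (tb w) ((adf G B X W T Zc b).t (Sum.inl w)))) w
    rw [t_up G B X W T Zc hZ b l hv]
    by_cases h : ∃ k, v k = w
    · obtain ⟨k, rfl⟩ := h
      rw [ldk_of h2 _ _ (Finset.mem_univ k), hl k]
      by_cases hk : k ∈ Δ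
      · rw [ldk_of h2 _ _ hk]
      · rw [ldk_ne]
        · have h3 : (adf G B X W T Zc b).t (Sum.inl (v k)) = 1 := by
            show (if v k ∈ X.E then (⟨X.sv (v k), X.φ (W.L.t (v k))⟩ : SP S P) else
              (if v k ∈ Zc then b (v k) else none).elim 1 fun s => il (G.y s)) = 1
            rw [if_neg (Finset.disjoint_left.1 hZ (h1 k).1), if_pos (h1 k).1, (h1 k).2.2]
            rfl
          rw [h3]
          unfold cj
          rw [map_mul, map_mul, hφ k hk, mul_one, ← map_mul, mul_inv_cancel, map_one, mul_one,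
            mul_inv_cancel, map_one]
        · intro j hj hjk
          rw [h2 hjk] at hj
          exact hk hj
    · push Not at h
      rw [ldk_ne _ _ fun k _ => h k, ldk_ne _ _ fun k _ => h k, hb w h]
  · show φ (cj (τ (B.pl i)) ((adf G B X W T Zc (up b v l)).t (Sum.inr i))) =
      φ (cj (tb (B.pl i)) ((adf G B X W T Zc b).t (Sum.inr i)))
    rw [hb (B.pl i) fun k hk => h0 (v k) (h1 k).1 (hk ▸ B.mem i)]
    rfl

/-- a fixed letter -/
theorem vl_fix (hZ : Disjoint Zc X.E) (h0 : ∀ v ∈ Zc, v ∉ D.S0) {R : Pl K → Prop} (b : Pl K → Option (Px c))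
    (l : Fin m → Px c) (tb : Pl K → S) (tl : Fin m → S) (φ : SP S P →* H) (Δ : Finset (Fin m))
    (hφ : ∀ k ∉ Δ, φ (il (G.y (l k))) = 1) {v : Fin m → Pl K} (hv : v ∈ Fr Zc R b m) (τ : Pl K → S)
    (hl : ∀ k, τ (v k) = tl k) (hb : ∀ w, (∀ k, v k ≠ w) → τ w = tb w) (j : Pl K ⊕ Fin A.g)
    (hj : ∀ k, Sum.inl (v k) ≠ j) :
    φ ((adf G B X W T Zc (up b v l)).vl τ j) =
      evw (kev G B X W T Zc b l tb tl φ Δ v) (φ (il (tb ((adf G B X W T Zc b).pj j))))
        ((adf G B X W T Zc b).W j) := by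
  obtain ⟨h1, h2⟩ := mem_fr.1 hv
  rw [vl_hom, kev_eq hZ h0 b l tb tl φ Δ hφ hv τ hl hb]
  have h3 : τ ((adf G B X W T Zc (up b v l)).pj j) = tb ((adf G B X W T Zc b).pj j) := by
    rcases j with w | i
    · exact hb w fun k hk => hj k (congrArg Sum.inl hk)
    · exact hb (B.pl i) fun k hk => h0 (v k) (h1 k).1 (hk ▸ B.mem i)
  rw [h3]
  rfl

/-- the letter `v i` -/
theorem vl_root (hZ : Disjoint Zc X.E) (h0 : ∀ v ∈ Zc, v ∉ D.S0) {R : Pl K → Prop} (b : Pl K → Option (Px c))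
    (l : Fin m → Px c) (tb : Pl K → S) (tl : Fin m → S) (φ : SP S P →* H) (Δ : Finset (Fin m))
    (hφ : ∀ k ∉ Δ, φ (il (G.y (l k))) = 1) {v : Fin m → Pl K} (hv : v ∈ Fr Zc R b m) (τ : Pl K → S)
    (hl : ∀ k, τ (v k) = tl k) (hb : ∀ w, (∀ k, v k ≠ w) → τ w = tb w) (i : Fin m) :
    φ ((adf G B X W T Zc (up b v l)).vl τ (Sum.inl (v i))) =
      evw (kev G B X W T Zc b l tb tl φ Δ v) (φ (il (tl i))) (W.Wv (v i)) := by
  rw [vl_hom, kev_eq hZ h0 b l tb tl φ Δ hφ hv τ hl hb]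
  show evw _ (φ (il (τ (v i)))) (W.Wv (v i)) = _
  rw [hl i]

theorem fix_dp (b : Pl K → Option (Px c)) (l : Fin m → Px c) (tb : Pl K → S) (tl : Fin m → S)
    (φ : SP S P →* H) (Δ : Finset (Fin m)) (a : H) (w : FreeGroup (Pl K ⊕ Fin A.g)) :
    Dp Δ fun x => evw (kev G B X W T Zc b l tb tl φ Δ x) a w :=
  dp_comp (kev_dp G B X W T Zc b l tb tl φ Δ) fun y => evw y a w

theorem root_dp (b : Pl K → Option (Px c)) (l : Fin m → Px c) (tb : Pl K → S) (tl : Fin m → S)
    (φ : SP S P →* H) (Δ : Finset (Fin m)) (a : H) (i : Fin m) :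
    Dp (insert i Δ) fun x => evw (kev G B X W T Zc b l tb tl φ Δ x) a (W.Wv (x i)) :=
  dp_at (g := fun x w => evw (kev G B X W T Zc b l tb tl φ Δ x) a (W.Wv w))
    (dp_comp (kev_dp G B X W T Zc b l tb tl φ Δ) fun y w => evw y a (W.Wv w)) i

end nt

end H1.OW
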