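import Pool.Agent.H12.FB.Stg
import Pool.Agent.H82.OW.Par
import Pool.Agent.H82.S3.Fre
import Pool.Agent.H88.OW.Frw
import Pool.Agent.H88.OW.Frv
import Pool.Agent.H51.OW.Good
import Pool.Agent.H73.OW.Stg2

/-!
# [H1 OW STW] all stages, all primes (MP_b39724_nt, THEOREM OW, assembly)

`Prw`: the parameters (output of `H82.OW.parw`). `Bx2H`: the box inequality with two layers (H48/OW/Bx2). `stg1w`: one stage: `m = 1`: `stg` (`fre`), `p ≠ 2` or `m` even: `stg_gd`,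
`m = 2 h + 1 ≥ 3`: `stg_bd`. `stgsw`: all stages.
-/

set_option autoImplicit false

open scoped NumberField commutatorElement
open IsDedekindDomain Filter Topology
open scoped Classical

noncomputable section

namespace H1.OW

open H38.ML H63.MA H38.BB H38.BG H57.PC H57.BRA H77.WD H77.WE H77.GL H77.PC3 H35.CF H35.UB H77.S3
  H71.S3 H1.S3 H73.S3 H24.RK H12.S3 H51.F3 H51.PF H93.BX H93.BY H12.FB H48.OW H88.OW H35.OW H73.OW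

attribute [local instance 50] Fintype.ofFinite

variable {K : IntermediateField ℚ QBar} [NumberField K] {p N : ℕ} {ζ : K} {D : RD0 K p ζ}
  {P : Type} [Group P] {c : CL p N P} {Q : DP K QBar} {A : GS D QBar} {Pa : H82.S3.Par}

/-- the parameters -/
structure Prw (hp : p.Prime) (κ mm k : ℕ) (Pa : H82.S3.Par) (G : SG c (H82.S3.Sp Pa (Px c))) : Prop where
  hPa : Pa.p = p
  hκ : κ = Pa.M 1
  hdv : p ∣ Pa.p ^ Pa.M Pa.c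
  hexp : ∀ t : P, t ^ (Pa.p ^ Pa.M Pa.c) = 1
  hTL : Pool.Agent.H61.Tu.gam (H82.S3.TL c) Pa.c = ⊥
  hG : ∀ x, G.y x = H82.S3.sy Pa x
  hpi : ∀ u, G.pi u ∈ H82.S3.TL c
  sz : Siz p κ Pa.c mm k P (H82.S3.Sp Pa (Px c))
  sz' : ∀ M : ℕ, M ≤ Pa.c → Siz p κ Pa.c mm k (P × Ci p M) (H82.S3.Sp Pa (Px (cO hp c M)))

/-- the box inequality with two layers -/
def Bx2H [Fintype P] (hp : p.Prime) (κ mm c₁ n : ℕ) [NeZero (p ^ κ)] (z : K) (B : SD D Q A)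
    (G : SG c (H82.S3.Sp Pa (Px c))) : Prop :=
  ∀ h : ℕ, 1 ≤ h → 2 * h + 2 ≤ Pa.c → A.g ≤ c₁ → ∀ (M : ℕ), 1 ≤ M → ∀ (C₁ A' ε : ℝ), 0 < ε →
    ∃ C₂ : ℕ, ∀ C' : ℕ, ∃ Y₀ : ℝ, ∀ Y : ℝ, Y₀ ≤ Y →
      ∀ (k Mw : ℕ) (X : FD A P (H82.S3.Sp Pa (Px c))) (W : WF A) (T : ℝ),
      BxH G B X W κ mm n z C₁ C₂ C' ε Y k Mw T →
      Nat.card (P × Ci p (2 * h + 1)) *
        Nat.card (H82.S3.Sp Pa (Px (cO hp c (2 * h + 1)))) ^ 2 * p ^ κ ≤ Mw →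
      NgOk G B X W k Mw (p ^ κ) Pa.c T (H35.UB.Zg D W.Z X.E) →
      ∀ x ∈ QBs (p ^ κ) (2 * h + 1) G X W (Pa.q (2 * h + 1)),
      ∀ Bf : ∀ i j : ℕ, Gr (H82.S3.Sp Pa (Px c)) i →+ Gr (H82.S3.Sp Pa (Px c)) j →+ ZMod (p ^ κ),
        QB G.y (Pa.q (2 * h + 1)) (Rh X W) x.1 x.2 Bf → ∀ (r : Px c) (w : Fin h → Px c),
        Bf (h + 1) (h + 1) (gk (h + 1) (rw1 G r w)) (gk (h + 1) (rw1 G r w)) ≠ 0 →
        BxF2 (d := 2 * h) G B X W T (H35.UB.Zg D W.Z X.E)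
          (fun f => etX G B X W T (H35.UB.Zg D W.Z X.E) f x) Bf (pat r w) M C₁ A' Y

/-- the statement of one stage for fixed data -/
def Sgt [Fintype P] (k n : ℕ) (z : K) (B : SD D Q A) (G : SG c (H82.S3.Sp Pa (Px c)))
    (L : LDs D QBar) (Fr : FR L) (φb φ' : Gal(QBar/K) →* P) (E : Finset (Pl K))
    (sv : Pl K → H82.S3.Sp Pa (Px c)) (si : Fin A.g → H82.S3.Sp Pa (Px c)) (M : ℕ) (ε A₁ : ℝ)
    (i j : ℕ) : Prop :=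
    ∃ C₁ C₀ : ℝ, 3 ≤ C₁ ∧ ∀ C₂ : ℝ, C₁ ≤ C₂ → Gpl p Fr E fun Y s =>
      ∀ (Zw : Finset (Pl K)) (l : List (Pl K)) (Wv : Pl K → FW A) (Wi : Fin A.g → FW A),
        Wq B E k (n + 1) z C₂ Y (wfs L Fr s Zw l Wv Wi) → ∀ ψ : ℝ → ℝ, Cut ψ →
        ‖Mm G B (fdx L Fr B φb φ' E sv si) (wfs L Fr s Zw l Wv Wi) (T0 ε Y) (H35.UB.Zg D Zw E)
            (wR (fdx L Fr B φb φ' E sv si) (wfs L Fr s Zw l Wv Wi) (T0 ε Y) (H35.UB.Zg D Zw E) M ψ Y)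
            i -
          Mm G B (fdx L Fr B φb φ' E sv si) (wfs L Fr s Zw l Wv Wi) (T0 ε Y) (H35.UB.Zg D Zw E)
            (wR (fdx L Fr B φb φ' E sv si) (wfs L Fr s Zw l Wv Wi) (T0 ε Y) (H35.UB.Zg D Zw E) M ψ Y) j‖ ≤
          C₀ * (Y * Real.log Y ^ (-A₁))

/-- the stage `m` from a stage theorem with `BxF` and a further box inequality `H2` -/
theorem sgt_of [Fintype P] (hp : p.Prime) (hζ : IsPrimitiveRoot ζ p)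
    {κ mm k n : ℕ} [NeZero (p ^ κ)] (G : SG c (H82.S3.Sp Pa (Px c))) (hPr : Prw hp κ mm k Pa G)
    (m : ℕ) (hm : 1 ≤ m) (hmc : m + 1 ≤ Pa.c) {L : LDs D QBar} {Fr : FR L} (B : SD D Q A)
    {z : K} (hB : BLG D QBar Q A B κ mm A.g n z)
    {φb φ' : Gal(QBar/K) →* P} {E : Finset (Pl K)} (hF : Fib L c φb φ' E)
    {sv : Pl K → H82.S3.Sp Pa (Px c)}
    {si : Fin A.g → H82.S3.Sp Pa (Px c)} (hsv : Svi G L A φb φ' E sv si) (M : ℕ) (ε A₁ : ℝ)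
    (hε : 0 < ε)
    (H2 : ℝ → ℝ → ℝ → FD A P (H82.S3.Sp Pa (Px c)) → WF A → ℝ → Prop)
    (hH2 : ∀ C₁ A' : ℝ, ∃ C₂ : ℕ, ∀ C' : ℕ, ∃ Y₀ : ℝ, ∀ Y : ℝ, Y₀ ≤ Y →
      ∀ (X : FD A P (H82.S3.Sp Pa (Px c))) (W : WF A) (T : ℝ),
      BxH G B X W κ mm n z C₁ C₂ C' ε Y k (p ^ k) T →
      NgOk G B X W k (p ^ k) (p ^ κ) Pa.c T (H35.UB.Zg D W.Z X.E) → H2 C₁ A' Y X W T)
    (hst : ∃ C₁ A' C : ℝ, 3 ≤ C₁ ∧ 0 ≤ A' ∧ 0 < C ∧ ∀ Y : ℝ, 3 ≤ Y →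
      ∀ (k Mw : ℕ) (X : FD A P (H82.S3.Sp Pa (Px c))) (W : WF A), X.E.card ≤ E.card →
        NgOk G B X W k Mw (p ^ κ) Pa.c (Real.exp (Real.log Y ^ ε)) (H35.UB.Zg D W.Z X.E) →
      ∀ ψ : ℝ → ℝ, (∀ t, |ψ t| ≤ 1) → (∀ t, 2 ≤ t → ψ t = 0) → (∀ s t, |ψ s - ψ t| ≤ |s - t|) →
      BxF (q := p ^ κ) G B X W (Real.exp (Real.log Y ^ ε)) (H35.UB.Zg D W.Z X.E) m C₁ A' Y →
      H2 C₁ A' Y X W (Real.exp (Real.log Y ^ ε)) →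
      ‖Mm G B X W (Real.exp (Real.log Y ^ ε)) (H35.UB.Zg D W.Z X.E)
          (wR X W (Real.exp (Real.log Y ^ ε)) (H35.UB.Zg D W.Z X.E) M ψ Y) (m + 1) -
        Mm G B X W (Real.exp (Real.log Y ^ ε)) (H35.UB.Zg D W.Z X.E)
          (wR X W (Real.exp (Real.log Y ^ ε)) (H35.UB.Zg D W.Z X.E) M ψ Y) m‖ ≤
        C * Y * Real.log Y ^ (-A₁)) :
    Sgt k n z B G L Fr φb φ' E sv si M ε A₁ (m + 1) m := by
  have hZ := hPr.sz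
  obtain ⟨C₁, A', C, h1, h2, h3, hst⟩ := hst
  obtain ⟨n', rfl⟩ : ∃ n', m = n' + 1 := ⟨m - 1, by omega⟩
  have hdu : ∀ j, Nat.card (Du (H82.S3.Sp Pa (Px c)) (p ^ κ) j) ≤
      (p ^ κ) ^ Nat.card (H82.S3.Sp Pa (Px c)) := fun j => card_du
  obtain ⟨C₂', hbx⟩ := bxf hp hζ B hB G hZ.pS hZ.pP hZ.qe (n := n') (by
      have := hZ.h0
      omega) (le_refl A.g)
    (le_trans (Nat.mul_le_mul le_rfl (Nat.mul_le_mul le_rfl (hdu _))) hZ.h1)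
    (le_trans (Nat.mul_le_mul (Nat.card_le_card_of_injective (fun x : Px c => x.1)
      Subtype.val_injective) (hdu _)) hZ.h2) C₁ A' ε hε
  obtain ⟨C₂'', hbx2⟩ := hH2 C₁ A'
  obtain ⟨Y₁, hY₁⟩ := stg_ev E hε
  refine ⟨C₁, C, h1, fun C₂ hC₂ => ⟨Mx (p ^ κ) mm ^ (2 ^ mm), (max C₂' C₂'') * (3 * mm + 4), fun C' => ?_⟩⟩
  obtain ⟨Y₀, hY₀⟩ := hbx C'
  obtain ⟨Y₂, hY₂⟩ := hbx2 C'
  refine ⟨max 3 (max (max Y₀ Y₂) Y₁), fun Y hY s hs hg Zw l Wv Wi hW ψ hψ => ?_⟩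
  have hYr := (le_max_right _ _).trans hY
  obtain ⟨hY3, hYE, hYl⟩ := hY₁ Y ((le_max_right _ _).trans hYr)
  have hYs := (le_max_left _ _).trans hYr
  have hg1 := H12.S3.Q.glp_mono (by linarith) hg (le_refl (Mx (p ^ κ) mm ^ (2 ^ mm)))
    (Nat.mul_le_mul_right (3 * mm + 4) (le_max_left C₂' C₂''))
  have hg2 := H12.S3.Q.glp_mono (by linarith) hg (le_refl (Mx (p ^ κ) mm ^ (2 ^ mm)))
    (Nat.mul_le_mul_right (3 * mm + 4) (le_max_right C₂' C₂''))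
  have hNg := ngx hp hZ G (Fr := Fr) B hF hsv hYE hs hW
  have hall : ∀ v, D.Gd v → (nm v : ℝ) ≤ Y ^ C₁ → v ∈ (wfs L Fr s Zw l Wv Wi).Z := fun v hv hvY =>
    hW.all v hv (hvY.trans (Real.rpow_le_rpow_of_exponent_le (by linarith) hC₂))
  have hBx := hY₀ Y ((le_max_left _ _).trans hYs) k (p ^ k) (fdx L Fr B φb φ' E sv si)
    (wfs L Fr s Zw l Wv Wi) (T0 ε Y) ⟨hNg.okX, hNg.okW, hZ.h4, le_rfl, hW.nl, hg1, hall, hW.ez, hYl,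
      le_rfl⟩
  have hBx2 := hY₂ Y ((le_max_right _ _).trans hYs) (fdx L Fr B φb φ' E sv si)
    (wfs L Fr s Zw l Wv Wi) (T0 ε Y) ⟨hNg.okX, hNg.okW, hZ.h4, le_rfl, hW.nl, hg2, hall, hW.ez, hYl,
      le_rfl⟩ hNg
  refine (hst Y hY3 k (p ^ k) (fdx L Fr B φb φ' E sv si) (wfs L Fr s Zw l Wv Wi)
    le_rfl hNg ψ (fun t => ?_) hψ.van hψ.lip hBx hBx2).trans (le_of_eq (mul_assoc _ _ _))
  rw [abs_of_nonneg (hψ.nn t)]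
  exact hψ.le t

/-- the size of `Sp` does not see the order of `S` -/
theorem q0_dvd {κ : ℕ} (hPa : Pa.p = p) (hκ : κ = Pa.M 1) : Pa.q 0 ∣ p ^ κ := by
  have h : Pa.q 0 = p ^ κ := by
    show Pa.p ^ Pa.M 1 = p ^ κ
    rw [hκ, hPa]
  rw [h]

/-- one stage -/
theorem stg1w [Fintype P] (hp : p.Prime) (hζ : IsPrimitiveRoot ζ p)
    {κ mm k n : ℕ} [NeZero (p ^ κ)] (G : SG c (H82.S3.Sp Pa (Px c))) (hPr : Prw hp κ mm k Pa G)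
    (m : ℕ) (hm : 1 ≤ m) (hmc : m + 1 ≤ Pa.c) {L : LDs D QBar} {Fr : FR L} (B : SD D Q A)
    {z : K} (hB : BLG D QBar Q A B κ mm A.g n z) (hB2 : Bx2H hp κ mm A.g n z B G)
    {φb φ' : Gal(QBar/K) →* P} {E : Finset (Pl K)} (hF : Fib L c φb φ' E)
    {sv : Pl K → H82.S3.Sp Pa (Px c)}
    {si : Fin A.g → H82.S3.Sp Pa (Px c)} (hsv : Svi G L A φb φ' E sv si) (M : ℕ)
    (hM : Pa.c + 1 ≤ M) (hM2 : ∀ d, d + 2 ≤ Pa.c → (d + 1 + 1) *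
      (Fintype.card (Elb2 c (H82.S3.Sp Pa (Px c)) (p ^ κ) d) *
        Fintype.card (Gr (H82.S3.Sp Pa (Px c)) 1)) ≤ M) (ε A₁ : ℝ)
    (hε : 0 < ε) (hA : 0 ≤ A₁) :
    Sgt k n z B G L Fr φb φ' E sv si M ε A₁ (m + 1) m := by
  have hT : ∀ u, G.pi u ^ (Pa.p ^ Pa.M Pa.c) = 1 := fun u => hPr.hexp _
  have hq0 : Pa.q 0 ∣ p ^ κ := q0_dvd hPr.hPa hPr.hκ
  have hqr : p ^ κ = Pa.p ^ κ := by rw [hPr.hPa]
  have hFrw := frw Pa G hPr.hG hT m hm hmc (p ^ κ) κ hqr (le_of_eq hPr.hκ.symm)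
  have hFrv := frv Pa G hPr.hG m hm hmc (p ^ κ) hq0
  have hFrg := H51.OW.frg_sp (q := p ^ κ) G hPr.hG hm hmc hq0
  by_cases hg : p ≠ 2 ∨ m % 2 = 0
  · refine sgt_of hp hζ G hPr m hm hmc B hB hF hsv M ε A₁ hε (fun _ _ _ _ _ _ => True)
      (fun _ _ => ⟨0, fun _ => ⟨0, fun _ _ _ _ _ _ _ => trivial⟩⟩) ?_
    obtain ⟨C₁, A', C, h1, h2, h3, h4⟩ := stg_gd hp G B m hm hg hFrw hFrv hFrg M (by omega) Pa.c
      E.card A₁ ε hA hε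
    exact ⟨C₁, A', C, h1, h2, h3, fun Y hY k' Mw X W hE hN ψ a1 a2 a3 hb _ =>
      h4 Y hY k' Mw X W (H35.UB.Zg D W.Z X.E) hE hN ψ a1 a2 a3 hb⟩
  · push Not at hg
    obtain ⟨hp2, hm2⟩ := hg
    by_cases h1m : m = 1
    · have hFr := H82.S3.fre Pa G hPr.hG hT m hm hmc (p ^ κ) κ hqr (le_of_eq hPr.hκ.symm)
        (Or.inr (by omega))
      refine sgt_of hp hζ G hPr m hm hmc B hB hF hsv M ε A₁ hε (fun _ _ _ _ _ _ => True)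
        (fun _ _ => ⟨0, fun _ => ⟨0, fun _ _ _ _ _ _ _ => trivial⟩⟩) ?_
      obtain ⟨C₁, A', C, h1, h2, h3, h4⟩ := stg (q := p ^ κ) hp G B m hm hFr M (by omega) Pa.c
        E.card A₁ ε hA hε
      exact ⟨C₁, A', C, h1, h2, h3, fun Y hY k' Mw X W hE hN ψ a1 a2 a3 hb _ =>
        h4 Y hY k' Mw X W (H35.UB.Zg D W.Z X.E) hE hN ψ a1 a2 a3 hb⟩
    · obtain ⟨h, rfl⟩ : ∃ h, m = 2 * h + 1 := ⟨(m - 1) / 2, by omega⟩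
      have hh : 1 ≤ h := by omega
      obtain ⟨C₁, A', C, h1, h2, h3, h4⟩ := stg_bd hp G B h hh hFrw hFrv hFrg M (by omega)
        (hM2 (2 * h) (by omega)) Pa.c E.card A₁ ε hA hε
      refine sgt_of hp hζ G hPr (2 * h + 1) hm hmc B hB hF hsv M ε A₁ hε
        (fun C₁ A' Y X W T => ∀ x ∈ QBs (p ^ κ) (2 * h + 1) G X W (Pa.q (2 * h + 1)),
          ∀ Bf : ∀ i j : ℕ, Gr (H82.S3.Sp Pa (Px c)) i →+ Gr (H82.S3.Sp Pa (Px c)) j →+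
            ZMod (p ^ κ),
          QB G.y (Pa.q (2 * h + 1)) (Rh X W) x.1 x.2 Bf → ∀ (r : Px c) (w : Fin h → Px c),
          Bf (h + 1) (h + 1) (gk (h + 1) (rw1 G r w)) (gk (h + 1) (rw1 G r w)) ≠ 0 →
          BxF2 (d := 2 * h) G B X W T (H35.UB.Zg D W.Z X.E)
            (fun f => etX G B X W T (H35.UB.Zg D W.Z X.E) f x) Bf (pat r w) M C₁ A' Y) ?_ ?_
      · intro C₁ A'
        obtain ⟨C₂, hC₂⟩ := hB2 h hh (by omega) le_rfl M (by omega) C₁ A' ε hε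
        refine ⟨C₂, fun C' => ?_⟩
        obtain ⟨Y₀, hY₀⟩ := hC₂ C'
        exact ⟨Y₀, fun Y hY X W T hX hN => hY₀ Y hY k (p ^ k) X W T hX
          (hPr.sz' (2 * h + 1) (by omega)).h3 hN⟩
      · exact ⟨C₁, A', C, h1, h2, h3, fun Y hY k' Mw X W hE hN ψ a1 a2 a3 hb hb2 =>
          h4 Y hY k' Mw X W (H35.UB.Zg D W.Z X.E) hE hN ψ a1 a2 a3 hb hb2⟩

/-- all stages -/
theorem stgsw [Fintype P] (hp : p.Prime) (hζ : IsPrimitiveRoot ζ p)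
    {κ mm k n : ℕ} [NeZero (p ^ κ)] (G : SG c (H82.S3.Sp Pa (Px c))) (hPr : Prw hp κ mm k Pa G)
    {L : LDs D QBar} {Fr : FR L} (B : SD D Q A)
    {z : K} (hB : BLG D QBar Q A B κ mm A.g n z) (hB2 : Bx2H hp κ mm A.g n z B G)
    {φb φ' : Gal(QBar/K) →* P} {E : Finset (Pl K)} (hF : Fib L c φb φ' E)
    {sv : Pl K → H82.S3.Sp Pa (Px c)}
    {si : Fin A.g → H82.S3.Sp Pa (Px c)} (hsv : Svi G L A φb φ' E sv si) (M : ℕ)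
    (hM : Pa.c + 1 ≤ M) (hM2 : ∀ d, d + 2 ≤ Pa.c → (d + 1 + 1) *
      (Fintype.card (Elb2 c (H82.S3.Sp Pa (Px c)) (p ^ κ) d) *
        Fintype.card (Gr (H82.S3.Sp Pa (Px c)) 1)) ≤ M) (ε A₁ : ℝ)
    (hε : 0 < ε) (hA : 0 ≤ A₁) :
    Sgt k n z B G L Fr φb φ' E sv si M ε A₁ Pa.c 1 := by
  have key : ∀ j : ℕ, 1 ≤ j → j ≤ Pa.c → Sgt k n z B G L Fr φb φ' E sv si M ε A₁ j 1 := by
    intro j hj
    induction j, hj using Nat.le_induction with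
    | base =>
      intro _
      refine ⟨3, 0, le_rfl, fun C₂ _ => ⟨0, 0, fun C' => ⟨0, fun Y _ s _ _ Zw l Wv Wi _ ψ _ => ?_⟩⟩⟩
      rw [sub_self, norm_zero, zero_mul]
    | succ j hj ih =>
      intro hjc
      obtain ⟨C₁, C₀, h1, h2⟩ := ih (by omega)
      obtain ⟨C₁', C₀', h1', h2'⟩ := stg1w hp hζ G hPr j hj hjc (Fr := Fr) B hB hB2 hF hsv
        M hM hM2 ε A₁ hε hA
      refine ⟨max C₁ C₁', C₀' + C₀, h1.trans (le_max_left _ _), fun C₂ hC₂ => ?_⟩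
      refine H12.S3.Q.gpl_ge (H12.S3.Q.gpl_and (h2 C₂ ((le_max_left _ _).trans hC₂))
        (h2' C₂ ((le_max_right _ _).trans hC₂))) 0 fun Y _ s hR Zw l Wv Wi hW ψ hψ => ?_
      have e1 := hR.1 Zw l Wv Wi hW ψ hψ
      have e2 := hR.2 Zw l Wv Wi hW ψ hψ
      rw [add_mul]
      exact tri3 e2 e1
  exact key Pa.c hPr.sz.c1 le_rfl

end H1.OW
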